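import Pool.Agent.Lib.MP_688fd0_co.LIN.N43.Conn3
import Pool.Agent.Lib.MP_688fd0_co.LIN.N43.Load
import Pool.Agent.Lib.MP_688fd0_co.ASY.Iface
import Pool.Agent.Lib.MP_688fd0_co.ASY.N43.StepA3s

/-!
STEP3 (helper43): the degree-free step in vertex-transitive graphs.
-/

set_option autoImplicit false

namespace Pool.Agent.Lib.MP_688fd0_co.ASY.N43

open Classical
open Pool.Agent.Lib.MP_688fd0_co.LP (IsP Conn Cyc Symm cay)
open Pool.Agent.Lib.MP_688fd0_co.LIN
open Pool.Agent.Lib.MP_688fd0_co.LIN.N43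

universe u

/-- CONN3, with other constants -/
theorem conn3b (hload : LoadStatement.{u}) (V : Type u) [Fintype V] (ι : Type u) [Fintype ι] (G : SimpleGraph V)
    (hG : VT G) (cls : V → Option ι) (I : Finset ι) (l q s : ℕ)
    (hl : ∀ i ∈ I, l ≤ (Finset.univ.filter (fun v => cls v = some i)).card) (hq : 32 * (s + 1) * q ≤ l)
    (hcase : 4 * Fintype.card V ≤ bn G s * I.card ∨ (bn G s = Fintype.card V ∧ 2 ≤ I.card)) :
    ∃ (M : Finset ι) (m : ℕ) (Q : Fin m → List V) (src tgt : Fin m → ι), M ⊆ I ∧ q * I.card ≤ 32 * m ∧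
    (∀ t, src t ∈ M ∧ tgt t ∉ M ∧ IsConn G cls (src t) (Q t) ∧
      ∃ b, (Q t).getLast? = some b ∧ cls b = some (tgt t)) ∧
    (∀ s t, s ≠ t → List.Disjoint (Q s) (Q t)) ∧
    ∀ i, (Finset.univ.filter (fun t => src t = i)).card ≤ q := by
  by_contra hcon
  push Not at hcon
  obtain ⟨m, hm1, hm2⟩ : ∃ m, q * I.card ≤ 32 * m ∧ ∀ x, x < m → 32 * x < q * I.card := by
    have hex : ∃ m, q * I.card ≤ 32 * m := ⟨q * I.card, by omega⟩
    refine ⟨Nat.find hex, Nat.find_spec hex, fun x hx => ?_⟩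
    have := Nat.find_min hex hx
    omega
  have hcut : ∀ M, ∃ (X : Finset V) (Y : Finset ι), M ⊆ I → (32 * (X.card + q * Y.card) < q * I.card ∧
      ∀ i ∈ M, i ∉ Y → ∀ j, j ∉ M → ∀ w, cls w = some j → w ∉ X →
        ¬ Wk G (fun i => {v | cls v = some i}) (fun v => if v ∈ X then 1 else 0) i 0 w) := by
    intro M
    by_cases hM : M ⊆ I
    · rcases cut_or G cls M q m with ⟨Q, src, tgt, h1, h2, h3⟩ | ⟨X, Y, h1, h2⟩
      · exfalso
        obtain ⟨i, hi⟩ := hcon M m Q src tgt hM hm1 h1 h2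
        have := h3 i
        omega
      · exact ⟨X, Y, fun _ => ⟨hm2 _ h1, h2⟩⟩
    · exact ⟨∅, ∅, fun h => absurd h hM⟩
  choose X Y hXY using hcut
  obtain ⟨W, Z, T, hsum, hlow⟩ := weights G cls I 32 q X Y hXY
  have hqI : 0 < q * I.card * T := lt_of_le_of_lt (Nat.zero_le _) hsum
  have hq0 : 0 < q := by
    rcases Nat.eq_zero_or_pos q with h | h
    · rw [h] at hqI; simp at hqI
    · exact h
  have hI0 : 0 < I.card := by
    rcases Nat.eq_zero_or_pos I.card with h | h
    · rw [h] at hqI; simp at hqI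
    · exact h
  have hT0 : 0 < T := by
    rcases Nat.eq_zero_or_pos T with h | h
    · rw [h] at hqI; simp at hqI
    · exact h
  have hb0 : 0 < bn G s := by
    rcases Nat.eq_zero_or_pos (bn G s) with h | h
    · obtain ⟨o⟩ := hG.conn.nonempty
      have : Nonempty V := ⟨o⟩
      have : 0 < Fintype.card V := Fintype.card_pos
      rw [h] at hcase
      omega
    · exact h
  -- light classes
  obtain ⟨I1, hI1⟩ : ∃ I1, I1 = I.filter (fun i => 8 * Z i < T) := ⟨_, rfl⟩
  have hI1c : 3 * I.card < 4 * I1.card := by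
    have h1 : (I.filter (fun i => ¬ 8 * Z i < T)).card * T ≤ 8 * ∑ i ∈ I, Z i := by
      rw [← smul_eq_mul, ← Finset.sum_const, Finset.mul_sum]
      calc _ ≤ ∑ i ∈ I.filter (fun i => ¬ 8 * Z i < T), 8 * Z i := by
            apply Finset.sum_le_sum
            intro i hi
            have := (Finset.mem_filter.1 hi).2
            omega
        _ ≤ _ := Finset.sum_le_sum_of_subset (Finset.filter_subset _ _)
    have h2 := Finset.card_filter_add_card_filter_not (s := I) (fun i => 8 * Z i < T)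
    have h3 : (q * T) * (4 * (I.filter (fun i => ¬ 8 * Z i < T)).card) < (q * T) * I.card := by
      calc (q * T) * (4 * (I.filter (fun i => ¬ 8 * Z i < T)).card)
          = 4 * q * ((I.filter (fun i => ¬ 8 * Z i < T)).card * T) := by ring
        _ ≤ 4 * q * (8 * ∑ i ∈ I, Z i) := Nat.mul_le_mul_left _ h1
        _ = 32 * (q * ∑ i ∈ I, Z i) := by ring
        _ ≤ 32 * (∑ v, W v + q * ∑ i ∈ I, Z i) := Nat.mul_le_mul_left _ (Nat.le_add_left _ _)
        _ < q * I.card * T := hsum
        _ = _ := by ring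
    have h4 := Nat.lt_of_mul_lt_mul_left h3
    rw [← hI1] at h2
    omega
  -- regions
  obtain ⟨R, hR⟩ : ∃ R : ι → Finset V, R = fun i => Finset.univ.filter (fun v =>
      ∃ t, Wk G (fun i => {v | cls v = some i}) W i t v ∧ 16 * (t + W v) < T) := ⟨_, rfl⟩
  have hmemR : ∀ i v, v ∈ R i ↔ ∃ t, Wk G (fun i => {v | cls v = some i}) W i t v ∧ 16 * (t + W v) < T := by
    intro i v
    rw [hR]
    simp
  have hlow1 : ∀ i ∈ I1, ∀ k, k ≠ i → ∀ w, cls w = some k → ∀ t,
      Wk G (fun i => {v | cls v = some i}) W i t w → T < 8 * (t + W w) := by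
    intro i hi k hk w hw t ht
    rw [hI1] at hi
    obtain ⟨h1, h2⟩ := Finset.mem_filter.1 hi
    have := hlow i h1 k hk w hw t ht
    omega
  have hdisj : ∀ i ∈ I1, ∀ j ∈ I1, i ≠ j → Disjoint (R i) (R j) := by
    intro i hi j hj hij
    rw [Finset.disjoint_left]
    intro v hv hv'
    obtain ⟨t, ht, ht'⟩ := (hmemR i v).1 hv
    obtain ⟨t1, ht1, ht1'⟩ := (hmemR j v).1 hv'
    obtain ⟨k, hk, w, hw, s', hs', hle⟩ := Wk.combine hij ht1 ht
    have := hlow1 i hi k hk w hw s' hs'
    omega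
  have hRsum : ∀ J ⊆ I1, ∑ i ∈ J, (R i).card ≤ Fintype.card V := by
    intro J hJ
    rw [← Finset.card_biUnion]
    · exact Finset.card_le_univ _
    · intro i hi j hj hij
      exact hdisj i (hJ hi) j (hJ hj) hij
  obtain ⟨I2, hI2⟩ : ∃ I2, I2 = I1.filter (fun i => 2 * (R i).card ≤ bn G s) := ⟨_, rfl⟩
  have hI12 := Finset.card_filter_add_card_filter_not (s := I1) (fun i => 2 * (R i).card ≤ bn G s)
  rw [← hI2] at hI12
  have hI2c : I.card ≤ 4 * I2.card := by
    have h1 := hRsum (I1.filter (fun i => ¬ 2 * (R i).card ≤ bn G s)) (Finset.filter_subset _ _)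
    have h2 : (I1.filter (fun i => ¬ 2 * (R i).card ≤ bn G s)).card * (bn G s + 1) ≤
        2 * ∑ i ∈ I1.filter (fun i => ¬ 2 * (R i).card ≤ bn G s), (R i).card := by
      rw [← smul_eq_mul, ← Finset.sum_const, Finset.mul_sum]
      apply Finset.sum_le_sum
      intro i hi
      have := (Finset.mem_filter.1 hi).2
      omega
    rcases hcase with h8 | ⟨hn, h2I⟩
    · have h3 : bn G s * (2 * (I1.filter (fun i => ¬ 2 * (R i).card ≤ bn G s)).card) ≤ bn G s * I.card := by
        calc bn G s * (2 * (I1.filter (fun i => ¬ 2 * (R i).card ≤ bn G s)).card)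
            = 2 * ((I1.filter (fun i => ¬ 2 * (R i).card ≤ bn G s)).card * bn G s) := by ring
          _ ≤ 2 * ((I1.filter (fun i => ¬ 2 * (R i).card ≤ bn G s)).card * (bn G s + 1)) := by gcongr; omega
          _ ≤ 2 * (2 * Fintype.card V) := Nat.mul_le_mul_left _ (h2.trans (Nat.mul_le_mul_left _ h1))
          _ = 4 * Fintype.card V := by ring
          _ ≤ _ := h8
      have h4 := Nat.le_of_mul_le_mul_left h3 hb0
      omega
    · have h3 : (I1.filter (fun i => ¬ 2 * (R i).card ≤ bn G s)).card ≤ 1 := by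
        by_contra hgt
        replace hgt := Nat.lt_of_not_le hgt
        have h4 : 2 * (bn G s + 1) ≤ 2 * Fintype.card V :=
          (Nat.mul_le_mul_right _ hgt).trans (h2.trans (Nat.mul_le_mul_left _ h1))
        omega
      omega
  -- the load
  obtain ⟨C, hC⟩ : ∃ C : Finset V, C = I2.biUnion (fun i => Finset.univ.filter (fun v => cls v = some i)) := ⟨_, rfl⟩
  have hCc : l * I2.card ≤ C.card := by
    rw [hC, Finset.card_biUnion, Nat.mul_comm, ← smul_eq_mul, ← Finset.sum_const]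
    · apply Finset.sum_le_sum
      intro i hi
      apply hl i
      rw [hI2, hI1] at hi
      exact (Finset.mem_filter.1 (Finset.mem_filter.1 hi).1).1
    · intro i _ j _ hij
      rw [Function.onFun, Finset.disjoint_left]
      intro v hv hv'
      have h1 := (Finset.mem_filter.1 hv).2
      have h2 := (Finset.mem_filter.1 hv').2
      rw [h1] at h2
      exact hij (Option.some.inj h2)
  have hmemC : ∀ x ∈ C, ∃ i ∈ I2, cls x = some i := by
    intro x hx
    rw [hC] at hx
    obtain ⟨i, hi, hx⟩ := Finset.mem_biUnion.1 hx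
    exact ⟨i, hi, (Finset.mem_filter.1 hx).2⟩
  obtain ⟨Rx, hRx⟩ : ∃ Rx : V → Finset V, ∀ x i, cls x = some i → Rx x = R i :=
    ⟨fun x => match cls x with
      | some i => R i
      | none => ∅, fun x i h => by simp only [h]⟩
  have hL := hload V G hG (fun v => 16 * W v) C Rx s T (by
    intro x hx
    obtain ⟨i, hi, hxi⟩ := hmemC x hx
    rw [hRx x i hxi]
    rw [hI2] at hi
    exact (Finset.mem_filter.1 hi).2) (by
    intro x hx P hP hPx hPu
    obtain ⟨u, hPu, hu⟩ := hPu
    obtain ⟨i, hi, hxi⟩ := hmemC x hx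
    have hi1 : i ∈ I1 := by
      rw [hI2] at hi
      exact (Finset.mem_filter.1 hi).1
    rw [hRx x i hxi, hmemR] at hu
    push Not at hu
    have h16 : (P.map (fun v => 16 * W v)).sum = 16 * (P.map W).sum := List.sum_map_mul_left P W 16
    rw [h16]
    obtain ⟨P', rfl⟩ : ∃ P', P = x :: P' := by
      cases P with
      | nil => simp at hPx
      | cons a P' => simp at hPx; exact ⟨P', by rw [hPx]⟩
    rcases follow P' x 0 (Wk.base (C := fun i => {v | cls v = some i}) (i := i) hxi) hP.2.1 hPu with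
      ⟨k, hk, w, hw, t, ht, hle⟩ | ⟨t, ht, hle⟩
    · have := hlow1 i hi1 k hk w hw t ht
      omega
    · have := hu t ht
      omega)
  have hfin : 32 * (l * (I.card * T)) < 128 * (s + 1) * (q * I.card * T) := by
    calc 32 * (l * (I.card * T)) ≤ 32 * (l * (4 * I2.card * T)) := by gcongr
      _ = 128 * (T * (l * I2.card)) := by ring
      _ ≤ 128 * (T * C.card) := by gcongr
      _ ≤ 128 * (2 * (s + 1) * ∑ v, 16 * W v) := by gcongr
      _ = 128 * (s + 1) * (32 * ∑ v, W v) := by rw [← Finset.mul_sum]; ring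
      _ < 128 * (s + 1) * (q * I.card * T) := by
        apply Nat.mul_lt_mul_of_pos_left _ (by positivity)
        refine lt_of_le_of_lt ?_ hsum
        exact Nat.mul_le_mul_left _ (Nat.le_add_right _ _)
  have h9 : (I.card * T) * (32 * l) < (I.card * T) * (128 * (s + 1) * q) := by
    calc (I.card * T) * (32 * l) = 32 * (l * (I.card * T)) := by ring
      _ < _ := hfin
      _ = _ := by ring
  have h10 := Nat.lt_of_mul_lt_mul_left h9
  have h11 : 128 * (s + 1) * q = 4 * (32 * (s + 1) * q) := by ring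
  omega


/-- STEP3 -/
theorem step3 (hload : LoadStatement.{u}) (hopt : OptStatement.{u}) (hw : WindowsStatement.{u})
    (hM : MergeStatement.{u}) (hS : SepStatement.{u}) (hMass : MassStatement.{u}) (hb : StepBStatement.{u})
    (hbase : BaseStatement.{u}) : Step3Statement.{u} := by
  refine ⟨2 ^ 60, ?_⟩
  intro V _ G H hG D hD l K s hO hK hsD hl hN hcase
  by_contra hcon
  push Not at hcon
  have hlen := (hopt V G l).2 H hO
  have h1 : 1 ≤ K ^ 3 * (s + 1) := Nat.mul_pos (pow_pos hK 3) (by omega)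
  have hl16 : 16 ≤ l := by
    calc 16 ≤ 2 ^ 60 * 1 := by norm_num
      _ ≤ 2 ^ 60 * (K ^ 3 * (s + 1)) := Nat.mul_le_mul_left _ h1
      _ = 2 ^ 60 * K ^ 3 * (s + 1) := by ring
      _ ≤ l := hl
  obtain ⟨W, hW1, hW2, hW3, hW4, hW5⟩ := hw V G H hO.1 (l / 16) (by omega)
    (fun v hv => by
      have := (hlen.1 v hv).1
      omega)
  obtain ⟨q, hq⟩ : ∃ q, q = l / (32 * (s + 1)) := ⟨_, rfl⟩
  have hq1 : 32 * (s + 1) * q ≤ l := by
    rw [hq]
    exact Nat.mul_div_le _ _
  have hq2 : 2 ^ 48 * (0 + 1) ^ 2 * K ^ 3 * 32 ≤ q := by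
    rw [hq, Nat.le_div_iff_mul_le (by positivity)]
    calc 2 ^ 48 * (0 + 1) ^ 2 * K ^ 3 * 32 * (32 * (s + 1)) = 2 ^ 58 * (K ^ 3 * (s + 1)) := by ring
      _ ≤ 2 ^ 60 * (K ^ 3 * (s + 1)) := Nat.mul_le_mul_right _ (by norm_num)
      _ = 2 ^ 60 * K ^ 3 * (s + 1) := by ring
      _ ≤ l := hl
  obtain ⟨M', Kp, hkept, hcard⟩ := stepa_gen' hM hopt hS hMass G H 0 l K q 32 W hO hK hl16 (by norm_num)
    (by norm_num) (by omega) (by
      intro I hI hIN
      obtain ⟨M, m, Q, src, tgt, h2, h3, h4, h5, h6⟩ := conn3b hload V (Finset V) G hG (hcls H) I l q s (by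
        intro S hS'
        obtain ⟨v, hv, rfl⟩ := LIN.H85.mem_cycs.1 (hI hS')
        refine (hlen.1 v hv).1.trans (Finset.card_le_card ?_)
        intro w hw'
        simp only [Finset.mem_filter, Finset.mem_univ, true_and]
        refine LIN.H85.hcls_some.2 ⟨LIN.H85.reach_cov (LIN.H85.mem_cyc.1 hw') hv, ?_⟩
        exact (LIN.H85.cyc_eq_iff.2 (LIN.H85.mem_cyc.1 hw')).symm) hq1 (by
        rcases hcase with h | h
        · right
          have h7 := (hbase V G hG).2.2.2.2.2.1 D hD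
          rw [h]
          exact ⟨h7, by omega⟩
        · left
          have h7 : bn G s * ncyc H ≤ bn G s * (2 * I.card) := Nat.mul_le_mul_left _ hIN.le
          have h8 : bn G s * (2 * I.card) = 2 * (bn G s * I.card) := by ring
          omega)
      exact ⟨M, m, Q, src, tgt, h2, h3, h4, h5, fun i => by convert h6 i⟩) hq2 hcon hW1 hW3 hW4
  exact hb V G H 0 l K W M' Kp hO hK hl16 hN hcon hW1 hW2 hW3 hW5 hkept hcard

end Pool.Agent.Lib.MP_688fd0_co.ASY.N43
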