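import Pool.Agent.Lib.MP_688fd0_co.LIN.All
import Pool.Agent.Lib.MP_688fd0_co.ASY.N43.Step3

/-!
STEP3, unconditional (helper43).
-/

set_option autoImplicit false

namespace Pool.Agent.Lib.MP_688fd0_co.ASY.N43

open Pool.Agent.Lib.MP_688fd0_co.LIN

universe u

theorem all_step3 : Step3Statement.{u} :=
  step3 LIN.N43.load H15.opt (H43.windows H43.enum) all_merge H15.sep H15.mass
    (H60.stepB H42.surg1 H53.surg2 H42.count) H89.base

end Pool.Agent.Lib.MP_688fd0_co.ASY.N43
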