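import Pool.Agent.Lib.MP_688fd0_co.ASY.TB.Iface

/-!
QEX (helper43): uniform cut size.
-/

set_option autoImplicit false

namespace Pool.Agent.Lib.MP_688fd0_co.ASY.N43

open Classical
open Pool.Agent.Lib.MP_688fd0_co.LP (IsP Conn Cyc Symm cay)
open Pool.Agent.Lib.MP_688fd0_co.LIN

universe u

theorem qex (hOm : OmegaStatement.{u}) (hN : NearStatement.{u}) (hL : LocStatement.{u})
    (hT : TransStatement.{u}) : QexStatement.{u} := by
  intro V _ G r w D γ hO hD
  have hw : 1 ≤ w := by rw [hO.w_eq]; omega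
  obtain ⟨-, hN2, hN3, -⟩ := hN V G r w D γ hO
  obtain ⟨-, -, hO3, -⟩ := hOm V G r w D γ hO
  -- a first cut
  have hex : ∃ m, ∃ a b X, 100 * w ≤ a ∧ a ≤ b ∧ b + 100 * w ≤ D ∧ IsCut G γ w D a b X ∧ X.card = m := by
    refine ⟨_, 100 * w, 100 * w, sl G γ w D (100 * w) (100 * w), le_rfl, le_rfl, by omega, ⟨subset_rfl, ?_⟩, rfl⟩
    intro x y _ _ hc
    have := hc.1
    simp at this
  have hmin : ∀ a b X, 100 * w ≤ a → a ≤ b → b + 100 * w ≤ D → IsCut G γ w D a b X → Nat.find hex ≤ X.card :=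
    fun a b X h1 h2 h3 h4 => Nat.find_min' hex ⟨a, b, X, h1, h2, h3, h4, rfl⟩
  have hle : Nat.find hex ≤ 32 * bn G r := by
    refine (hmin (100 * w) (100 * w) (sl G γ w D (100 * w) (100 * w)) le_rfl le_rfl (by omega)
      ⟨subset_rfl, ?_⟩).trans ?_
    · intro x y _ _ hc
      have := hc.1
      simp at this
    · refine (Finset.card_le_card ?_).trans (hO3 (100 * w))
      intro x hx
      unfold sl at hx
      rw [Finset.mem_filter] at hx ⊢
      exact ⟨hx.1, hx.2.1, by omega⟩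
  obtain ⟨a0, b0, X0, ha0, hab0, hb0, hX0, hcard⟩ := Nat.find_spec hex
  refine ⟨Nat.find hex, ⟨?_, hle, hmin, ?_⟩⟩
  · -- the empty set is no cut
    by_contra hcon
    have h0 : X0 = ∅ := by
      rw [← Finset.card_eq_zero, hcard]
      omega
    subst h0
    have hmem : ∀ t, a0 ≤ t → t ≤ b0 → γ t ∈ ((↑(sl G γ w D a0 b0) : Set V) \ ↑(∅ : Finset V)) := by
      intro t h1 h2
      refine ⟨?_, by simp⟩
      unfold sl
      rw [Finset.mem_coe, Finset.mem_filter, hN2 t (by omega)]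
      exact ⟨hN3 t (by omega) (by omega), h1, h2⟩
    have hwalk : ∀ t, a0 ≤ t → t ≤ b0 → Conn G ((↑(sl G γ w D a0 b0) : Set V) \ ↑(∅ : Finset V)) (γ a0) (γ t) := by
      intro t h1
      induction t, h1 using Nat.le_induction with
      | base => intro _; exact ⟨hmem a0 le_rfl hab0, Relation.ReflTransGen.refl⟩
      | succ t h1 ih =>
        intro h2
        obtain ⟨h3, h4⟩ := ih (by omega)
        refine ⟨h3, h4.tail ⟨?_, hmem (t + 1) (by omega) h2⟩⟩
        have h5 := hO.geo t (t + 1) (by omega) (by omega)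
        rw [← SimpleGraph.dist_eq_one_iff_adj, h5]
        omega
    exact hX0.2 (γ a0) (γ b0) (hN2 a0 (by omega)) (hN2 b0 (by omega)) (hwalk b0 hab0 le_rfl)
  · intro a b ha hab hb
    obtain ⟨c, c', h1, h2, h3⟩ := hL V G r w D γ hO a0 b0 X0 ha0 hab0 hb0 hX0
    have h4 : G.dist c c' ≤ 30 * w * (32 * bn G r + 1) := by
      refine h2.trans (Nat.mul_le_mul_left _ ?_)
      rw [hcard]
      omega
    obtain ⟨X, hX, hXc⟩ := hT V G r w D γ hO c c' X0 h1 h3 a b ha (by
      have h5 : (60 * (32 * bn G r) + 160) * w = 2 * (30 * w * (32 * bn G r + 1)) + 100 * w := by ring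
      omega) hb
    refine ⟨X, hX, le_antisymm (hXc.trans hcard.le) (hmin a b X ha ?_ hb hX)⟩
    omega

end Pool.Agent.Lib.MP_688fd0_co.ASY.N43
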